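import Mathlib

set_option autoImplicit false

/-!
# Infinite products `∏ (1 - w b_k)` with summable coefficients
-/

open Filter Topology Finset

namespace Pool.Agent.Q237.CD

/-- the product -/
noncomputable def PB (b : ℕ → ℝ) (w : ℂ) : ℂ := ∏' k, (1 - w * (b k : ℂ))

variable {b : ℕ → ℝ}

theorem PB_summable (hb : Summable b) (w : ℂ) : Summable fun k => ‖-(w * (b k : ℂ))‖ := by
  have h : (fun k => ‖-(w * (b k : ℂ))‖) = fun k => ‖w‖ * |b k| := by
    funext k
    rw [norm_neg, norm_mul, Complex.norm_real, Real.norm_eq_abs]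
  rw [h]
  exact hb.abs.mul_left _

theorem PB_mult (hb : Summable b) (w : ℂ) : Multipliable fun k => 1 - w * (b k : ℂ) := by
  have h := multipliable_one_add_of_summable (PB_summable hb w)
  simpa [sub_eq_add_neg] using h

theorem PB_hasProd (hb : Summable b) (w : ℂ) :
    HasProd (fun k => 1 - w * (b k : ℂ)) (PB b w) := (PB_mult hb w).hasProd

theorem PB_unif (hb : Summable b) (R : ℝ) :
    TendstoUniformlyOn (fun N (w : ℂ) => ∏ k ∈ range N, (1 - w * (b k : ℂ))) (PB b) atTop
      (Metric.closedBall 0 R) := by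
  have h := Summable.hasProdUniformlyOn_nat_one_add (f := fun (k : ℕ) (w : ℂ) => -(w * (b k : ℂ)))
    (isCompact_closedBall (0 : ℂ) R) (hb.abs.mul_left R)
    (Eventually.of_forall fun k w hw => by
      rw [norm_neg, norm_mul, Complex.norm_real, Real.norm_eq_abs]
      refine mul_le_mul_of_nonneg_right ?_ (abs_nonneg _)
      simpa using hw)
    (fun k => by fun_prop)
  have h2 := h.tendstoUniformlyOn_finsetRange
  have e : PB b = fun w : ℂ => ∏' k, (1 - w * (b k : ℂ)) := rfl
  rw [e]
  simpa [sub_eq_add_neg] using h2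

theorem PB_lu (hb : Summable b) :
    TendstoLocallyUniformly (fun N (w : ℂ) => ∏ k ∈ range N, (1 - w * (b k : ℂ))) (PB b) atTop := by
  rw [tendstoLocallyUniformly_iff_forall_isCompact]
  intro K hK
  obtain ⟨R, hR⟩ := hK.isBounded.subset_closedBall (0 : ℂ)
  exact (PB_unif hb R).mono hR

theorem PB_diff (hb : Summable b) : Differentiable ℂ (PB b) := by
  have h1 := tendstoLocallyUniformlyOn_univ.2 (PB_lu hb)
  have h2 := h1.differentiableOn (Eventually.of_forall fun N => by fun_prop) isOpen_univ
  exact differentiableOn_univ.1 h2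

theorem PB_zero (b : ℕ → ℝ) : PB b 0 = 1 := by
  unfold PB
  simp

theorem PB_ofReal (hb : Summable b) (x : ℝ) :
    PB b (x : ℂ) = ((∏' k, (1 - x * b k) : ℝ) : ℂ) := by
  have h0 : Summable fun k => ‖-(x * b k)‖ := by
    have h : (fun k => ‖-(x * b k)‖) = fun k => |x| * |b k| := by
      funext k
      rw [norm_neg, Real.norm_eq_abs, abs_mul]
    rw [h]
    exact hb.abs.mul_left _
  have h1 : Multipliable fun k => 1 - x * b k := by
    have h := multipliable_one_add_of_summable h0
    simpa [sub_eq_add_neg] using h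
  have h2 := h1.map_tprod Complex.ofRealHom Complex.continuous_ofReal
  have h3 : ((∏' k, (1 - x * b k) : ℝ) : ℂ) = ∏' k, Complex.ofRealHom (1 - x * b k) := h2
  rw [h3]
  unfold PB
  congr 1
  funext k
  simp

theorem PB_conj (hb : Summable b) (w : ℂ) :
    PB b ((starRingEnd ℂ) w) = (starRingEnd ℂ) (PB b w) := by
  have h2 := (PB_mult hb w).map_tprod (starRingEnd ℂ) Complex.continuous_conj
  have h3 : (starRingEnd ℂ) (PB b w) = ∏' k, (starRingEnd ℂ) (1 - w * (b k : ℂ)) := h2
  rw [h3]
  unfold PB
  congr 1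
  funext k
  simp

theorem PB_eq_zero (hb : Summable b) (w : ℂ) : PB b w = 0 ↔ ∃ k, w * (b k : ℂ) = 1 := by
  constructor
  · intro h
    by_contra hne
    push Not at hne
    have h1 := tprod_one_add_ne_zero_of_summable (f := fun k => -(w * (b k : ℂ)))
      (fun k hk => hne k (by linear_combination -hk)) (PB_summable hb w)
    apply h1
    unfold PB at h
    simpa [sub_eq_add_neg] using h
  · rintro ⟨k, hk⟩
    unfold PB
    apply tprod_of_exists_eq_zero
    exact ⟨k, by rw [hk, sub_self]⟩

theorem PB_split (hb : Summable b) (j : ℕ) (w : ℂ) :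
    PB b w = (1 - w * (b j : ℂ)) * PB (Function.update b j 0) w := by
  have hb' : Summable (Function.update b j 0) := by
    have h1 : Summable fun k => |b k| := hb.abs
    refine Summable.of_norm_bounded h1 fun k => ?_
    by_cases hk : k = j
    · subst hk
      simp
    · rw [Function.update_of_ne hk, Real.norm_eq_abs]
  have h1 : HasProd (fun k => if k = j then 1 - w * (b j : ℂ) else 1) (1 - w * (b j : ℂ)) :=
    hasProd_ite_eq j _
  have h2 := h1.mul (PB_hasProd hb' w)
  have h3 : (fun k => (if k = j then 1 - w * (b j : ℂ) else 1) *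
      (1 - w * ((Function.update b j 0 k : ℝ) : ℂ))) = fun k => 1 - w * (b k : ℂ) := by
    funext k
    by_cases hk : k = j
    · subst hk
      simp
    · rw [if_neg hk, Function.update_of_ne hk, one_mul]
  rw [h3] at h2
  exact (PB_hasProd hb w).unique h2

theorem PB_deriv_ne (hb : Summable b) {j : ℕ} (hj : b j ≠ 0) (hne : ∀ k, k ≠ j → b k ≠ b j) :
    deriv (PB b) ((1 / b j : ℝ) : ℂ) ≠ 0 := by
  have hb' : Summable (Function.update b j 0) := by
    have h1 : Summable fun k => |b k| := hb.abs
    refine Summable.of_norm_bounded h1 fun k => ?_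
    by_cases hk : k = j
    · subst hk
      simp
    · rw [Function.update_of_ne hk, Real.norm_eq_abs]
  have hjC : (b j : ℂ) ≠ 0 := by exact_mod_cast hj
  set w0 : ℂ := ((1 / b j : ℝ) : ℂ) with hw0
  have hw1 : w0 * (b j : ℂ) = 1 := by
    rw [hw0]
    push_cast
    field_simp
  have h1 : HasDerivAt (fun w : ℂ => (1 - w * (b j : ℂ)) * PB (Function.update b j 0) w)
      ((-(b j : ℂ)) * PB (Function.update b j 0) w0 +
        (1 - w0 * (b j : ℂ)) * deriv (PB (Function.update b j 0)) w0) w0 := by
    have h2 : HasDerivAt (fun w : ℂ => 1 - w * (b j : ℂ)) (-(b j : ℂ)) w0 := by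
      have h3 := ((hasDerivAt_id w0).mul_const (b j : ℂ)).const_sub 1
      simpa using h3
    exact h2.mul (PB_diff hb').differentiableAt.hasDerivAt
  have h4 : PB b = fun w : ℂ => (1 - w * (b j : ℂ)) * PB (Function.update b j 0) w := by
    funext w
    exact PB_split hb j w
  rw [h4, h1.deriv, hw1, sub_self, zero_mul, add_zero]
  refine mul_ne_zero (neg_ne_zero.2 hjC) ?_
  rw [Ne, PB_eq_zero hb']
  rintro ⟨k, hk⟩
  by_cases hkj : k = j
  · subst hkj
    simp at hk
  · rw [Function.update_of_ne hkj] at hk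
    apply hne k hkj
    have h5 : (b k : ℂ) = (b j : ℂ) := by
      have h6 : w0 ≠ 0 := by
        intro h
        rw [h, zero_mul] at hw1
        exact zero_ne_one hw1
      apply mul_left_cancel₀ h6
      rw [hk, hw1]
    exact_mod_cast h5

end Pool.Agent.Q237.CD
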