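import Mathlib
import Pool.Agent.Q240.CD.Stm2
import Pool.Agent.Q237.CD.Prod

set_option autoImplicit false

/-!
# Basic properties of the products `S` and of the limit product
-/

open Filter Topology Finset

namespace Pool.Agent.Q237.CD

open Pool.Agent.Q240.CD

/-- the coefficients -/
noncomputable def bk (a : ℝ) (n : ℕ) (k : ℕ) : ℝ := 1 / xk a (n + 1 + k) ^ 2

theorem bk_eq (a : ℝ) (n k : ℕ) :
    bk a n k = a ^ 2 / Real.pi ^ 2 * (1 / ((n : ℝ) + 1 + k) ^ 2) := by
  unfold bk xk
  have h : ((n + 1 + k : ℕ) : ℝ) = (n : ℝ) + 1 + k := by push_cast; ring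
  rw [h]
  by_cases ha : a = 0
  · simp [ha]
  · have h1 : (0 : ℝ) < (n : ℝ) + 1 + k := by positivity
    have h2 := Real.pi_pos
    field_simp

theorem bk_nonneg (a : ℝ) (n k : ℕ) : 0 ≤ bk a n k := by
  unfold bk
  positivity

theorem bk_summable (a : ℝ) (n : ℕ) : Summable (bk a n) := by
  have h : (bk a n) = fun k : ℕ => a ^ 2 / Real.pi ^ 2 * (1 / ((k + (n + 1) : ℕ) : ℝ) ^ 2) := by
    funext k
    rw [bk_eq]
    push_cast
    ring_nf
  rw [h]
  apply Summable.mul_left
  exact (summable_nat_add_iff (n + 1)).2 (Real.summable_one_div_nat_pow.2 one_lt_two)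

theorem Sp_eq (a : ℝ) (n : ℕ) (z : ℂ) : Sp a n z = PB (bk a n) (z ^ 2) := by
  unfold Sp PB bk
  congr 1
  funext k
  push_cast
  rw [mul_one_div]

theorem Sr_eq (a : ℝ) (n : ℕ) (x : ℝ) : Sr a n x = ∏' k, (1 - x ^ 2 * bk a n k) := by
  unfold Sr bk
  congr 1
  funext k
  rw [mul_one_div]

theorem Sp_ofReal (a : ℝ) (n : ℕ) (x : ℝ) : Sp a n (x : ℂ) = (Sr a n x : ℂ) := by
  rw [Sp_eq, Sr_eq, ← PB_ofReal (bk_summable a n)]
  push_cast
  rfl

theorem spB : S_SpB := by
  intro a n
  have hb := bk_summable a n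
  have e : Sp a n = fun z => PB (bk a n) (z ^ 2) := by
    funext z
    exact Sp_eq a n z
  have hd : Differentiable ℂ (Sp a n) := by
    rw [e]
    exact (PB_diff hb).comp (differentiable_id.pow 2)
  refine ⟨hd, ?_, ?_, Sp_ofReal a n, ?_, ?_, ?_⟩
  · have h1 : Sr a n = fun x : ℝ => (Sp a n (x : ℂ)).re := by
      funext x
      rw [Sp_ofReal, Complex.ofReal_re]
    rw [h1]
    exact Complex.continuous_re.comp (hd.continuous.comp Complex.continuous_ofReal)
  · rw [Sp_eq, zero_pow two_ne_zero, PB_zero]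
  · intro z
    rw [Sp_eq, Sp_eq, neg_sq]
  · intro z
    rw [Sp_eq, Sp_eq, ← map_pow, PB_conj hb]
  · intro z
    rw [Sp_eq, PB_eq_zero hb]
    constructor
    · rintro ⟨k, hk⟩
      have ha : a ≠ 0 := by
        rintro rfl
        rw [bk_eq] at hk
        simp at hk
      have hx : xk a (n + 1 + k) ≠ 0 := by
        unfold xk
        have h1 : ((n + 1 + k : ℕ) : ℝ) ≠ 0 := by
          have : (n + 1 + k) ≠ 0 := by omega
          exact_mod_cast this
        exact div_ne_zero (mul_ne_zero Real.pi_ne_zero h1) ha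
      refine ⟨k, ha, ?_⟩
      have hxC : ((xk a (n + 1 + k) : ℝ) : ℂ) ≠ 0 := by exact_mod_cast hx
      unfold bk at hk
      push_cast at hk
      field_simp at hk
      exact hk
    · rintro ⟨k, ha, hk⟩
      have hx : xk a (n + 1 + k) ≠ 0 := by
        unfold xk
        have h1 : ((n + 1 + k : ℕ) : ℝ) ≠ 0 := by
          have : (n + 1 + k) ≠ 0 := by omega
          exact_mod_cast this
        exact div_ne_zero (mul_ne_zero Real.pi_ne_zero h1) ha
      have hxC : ((xk a (n + 1 + k) : ℝ) : ℂ) ≠ 0 := by exact_mod_cast hx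
      refine ⟨k, ?_⟩
      rw [hk]
      unfold bk
      push_cast
      field_simp

/-- A telescoping series. -/
theorem tele (c : ℝ) (hc : 0 < c) :
    HasSum (fun k : ℕ => 1 / (c + k) - 1 / (c + (k + 1 : ℕ))) (1 / c) := by
  rw [hasSum_iff_tendsto_nat_of_nonneg]
  · have h1 : ∀ N : ℕ, ∑ k ∈ range N, (1 / (c + k) - 1 / (c + (k + 1 : ℕ))) =
        1 / c - 1 / (c + N) := by
      intro N
      have h2 := Finset.sum_range_sub' (fun k : ℕ => 1 / (c + k)) N
      rw [h2]
      simp
    simp only [h1]
    have h3 : Tendsto (fun N : ℕ => 1 / (c + (N : ℝ))) atTop (𝓝 0) := by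
      have h4 : Tendsto (fun N : ℕ => c + (N : ℝ)) atTop atTop :=
        tendsto_atTop_add_const_left _ _ tendsto_natCast_atTop_atTop
      simp only [one_div]
      exact h4.inv_tendsto_atTop
    have h5 := h3.const_sub (1 / c)
    simpa using h5
  · intro k
    rw [sub_nonneg]
    apply one_div_le_one_div_of_le
    · positivity
    · push_cast
      linarith

theorem sn_bounds : S_Sn := by
  intro a n ha hn
  refine ⟨bk_summable a n, ?_, ?_⟩
  · have h1 := tele ((n : ℝ) + 1) (by positivity)
    have h2 := (bk_summable a n).hasSum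
    have h3 := h1.mul_left (a ^ 2 / Real.pi ^ 2)
    have h4 := hasSum_le (fun k => ?_) h3 h2
    · have e : sn a n = ∑' k, bk a n k := rfl
      rw [e]
      refine le_trans (le_of_eq ?_) h4
      field_simp
    · rw [bk_eq]
      refine mul_le_mul_of_nonneg_left ?_ (by positivity)
      have hp : (0 : ℝ) < (n : ℝ) + 1 + k := by positivity
      push_cast
      rw [div_sub_div _ _ hp.ne' (by positivity), div_le_div_iff₀ (by positivity) (by positivity)]
      nlinarith
  · have hn' : (0 : ℝ) < n := by exact_mod_cast hn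
    have h1 := tele (n : ℝ) hn'
    have h2 := (bk_summable a n).hasSum
    have h3 := h1.mul_left (a ^ 2 / Real.pi ^ 2)
    have h4 := hasSum_le (fun k => ?_) h2 h3
    · have e : sn a n = ∑' k, bk a n k := rfl
      rw [e]
      refine le_trans h4 (le_of_eq ?_)
      field_simp
    · rw [bk_eq]
      refine mul_le_mul_of_nonneg_left ?_ (by positivity)
      have hp : (0 : ℝ) < (n : ℝ) + k := by positivity
      have hk : (0 : ℝ) ≤ (k : ℝ) := by positivity
      push_cast
      rw [div_sub_div _ _ hp.ne' (by positivity), div_le_div_iff₀ (by positivity) (by positivity)]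
      nlinarith

theorem gcb : S_GCb := by
  intro g hg hg0 hs
  have hpos : ∀ j, 0 < g j := fun j => lt_of_lt_of_le hg0 (hg.monotone (Nat.zero_le j))
  have e : GC g = PB (fun j => 1 / g j) := by
    funext z
    unfold GC PB
    congr 1
    funext j
    push_cast
    rw [mul_one_div]
  have e2 : ∀ t : ℝ, GC g (t : ℂ) = (GG g t : ℂ) := by
    intro t
    rw [e, PB_ofReal hs]
    unfold GG
    congr 2
    funext j
    rw [mul_one_div]
  have hd : Differentiable ℂ (GC g) := by
    rw [e]
    exact PB_diff hs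
  refine ⟨hd, ?_, ?_, ?_, e2, ?_⟩
  · rw [e, PB_zero]
  · intro z
    rw [e, PB_eq_zero hs]
    constructor
    · rintro ⟨j, hj⟩
      have hC : (g j : ℂ) ≠ 0 := by exact_mod_cast (hpos j).ne'
      refine ⟨j, ?_⟩
      push_cast at hj
      field_simp at hj
      exact hj
    · rintro ⟨j, rfl⟩
      have hC : (g j : ℂ) ≠ 0 := by exact_mod_cast (hpos j).ne'
      refine ⟨j, ?_⟩
      push_cast
      field_simp
  · intro j
    have h1 := PB_deriv_ne (b := fun j => 1 / g j) hs (j := j)
      (one_div_ne_zero (hpos j).ne') (fun k hk h => by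
        simp only [one_div, inv_inj] at h
        exact hk (hg.injective h))
    simp only [one_div_one_div] at h1
    rw [e]
    exact h1
  · have h1 : GG g = fun x : ℝ => (GC g (x : ℂ)).re := by
      funext x
      rw [e2, Complex.ofReal_re]
    rw [h1]
    exact Complex.continuous_re.comp (hd.continuous.comp Complex.continuous_ofReal)

end Pool.Agent.Q237.CD
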