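import Mathlib
import Pool.Agent.Q237.CD.SpB

set_option autoImplicit false

/-!
# The Gaussian bound, monotonicity on vertical lines, a substitute for Hurwitz's theorem
-/

open Filter Topology Finset Polynomial

namespace Pool.Agent.Q237.CD

open Pool.Agent.Q240.CD

theorem factor_bound {t η : ℝ} (ht0 : 0 ≤ t) (ht1 : t ≤ 1) (h0 : 0 ≤ η) (h1 : η ≤ 1) :
    (1 - t) ^ 2 + η * (2 + 2 * t) + η ^ 2 ≤ Real.exp (-2 * t + 40 * η) := by
  have e1 : (1 - t) ^ 2 ≤ Real.exp (-2 * t) := by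
    have h2 : 1 - t ≤ Real.exp (-t) := by
      have := Real.add_one_le_exp (-t)
      linarith
    have h3 : (1 - t) ^ 2 ≤ Real.exp (-t) ^ 2 := pow_le_pow_left₀ (by linarith) h2 2
    rw [← Real.exp_nat_mul] at h3
    refine h3.trans (le_of_eq ?_)
    congr 1
    push_cast
    ring
  have e2 : (1 / 8 : ℝ) ≤ Real.exp (-2 * t) := by
    have h2 : Real.exp (-2 : ℝ) ≤ Real.exp (-2 * t) := Real.exp_le_exp.2 (by linarith)
    refine le_trans ?_ h2
    rw [Real.exp_neg, one_div]
    apply inv_anti₀ (Real.exp_pos 2)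
    have h3 : Real.exp (2 : ℝ) = Real.exp 1 * Real.exp 1 := by
      rw [← Real.exp_add]
      norm_num
    rw [h3]
    have h4 := Real.exp_one_lt_d9
    have h5 := Real.exp_pos 1
    nlinarith
  have e3 : η * (2 + 2 * t) + η ^ 2 ≤ 5 * η := by nlinarith
  have e4 : 1 + 40 * η ≤ Real.exp (40 * η) := by
    have := Real.add_one_le_exp (40 * η)
    linarith
  rw [Real.exp_add]
  have e5 := mul_le_mul_of_nonneg_left e4 (Real.exp_pos (-2 * t)).le
  have e6 : 5 * η ≤ Real.exp (-2 * t) * (40 * η) := by nlinarith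
  nlinarith

theorem normSq_factor (x y b : ℝ) :
    ‖1 - ((x : ℂ) + y * Complex.I) ^ 2 * (b : ℂ)‖ ^ 2 =
      (1 - x ^ 2 * b) ^ 2 + (y ^ 2 * b) * (2 + 2 * (x ^ 2 * b)) + (y ^ 2 * b) ^ 2 := by
  have h1 : 1 - ((x : ℂ) + y * Complex.I) ^ 2 * (b : ℂ) =
      ((1 - (x ^ 2 - y ^ 2) * b : ℝ) : ℂ) + ((-(2 * x * y * b) : ℝ) : ℂ) * Complex.I := by
    push_cast
    have h2 : Complex.I ^ 2 = -1 := Complex.I_sq
    linear_combination (-(y : ℂ) ^ 2 * b) * h2
  rw [h1, ← Complex.normSq_eq_norm_sq, Complex.normSq_add_mul_I]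
  ring

theorem Sp_tendsto (a : ℝ) (n : ℕ) (z : ℂ) :
    Tendsto (fun N => ∏ k ∈ range N, (1 - z ^ 2 * (bk a n k : ℂ))) atTop (𝓝 (Sp a n z)) := by
  rw [Sp_eq]
  exact (PB_hasProd (bk_summable a n) (z ^ 2)).tendsto_prod_nat

theorem near : S_Near := by
  intro a n z ha hx hy
  set x := z.re with hxd
  set y := z.im with hyd
  have hz : z = (x : ℂ) + y * Complex.I := (Complex.re_add_im z).symm
  have hX : 0 < xk a (n + 1) := by
    unfold xk
    have := Real.pi_pos
    positivity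
  have hb1 : ∀ k, xk a (n + 1) ^ 2 * bk a n k ≤ 1 := by
    intro k
    unfold bk
    have h1 : xk a (n + 1) ≤ xk a (n + 1 + k) := by
      have hc : ((n + 1 : ℕ) : ℝ) ≤ ((n + 1 + k : ℕ) : ℝ) := by
        exact_mod_cast Nat.le_add_right (n + 1) k
      exact div_le_div_of_nonneg_right (mul_le_mul_of_nonneg_left hc Real.pi_pos.le) ha.le
    have h2 : 0 < xk a (n + 1 + k) := lt_of_lt_of_le hX h1
    rw [mul_one_div, div_le_one (by positivity)]
    exact pow_le_pow_left₀ hX.le h1 2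
  have hx2 : x ^ 2 ≤ xk a (n + 1) ^ 2 := sq_le_sq' (by linarith [abs_le.1 hx]) (abs_le.1 hx).2
  have hy2 : y ^ 2 ≤ xk a (n + 1) ^ 2 := sq_le_sq' (by linarith [abs_le.1 hy]) (abs_le.1 hy).2
  have hfac : ∀ k, ‖1 - z ^ 2 * (bk a n k : ℂ)‖ ^ 2 ≤
      Real.exp ((-2 * x ^ 2 + 40 * y ^ 2) * bk a n k) := by
    intro k
    have hb0 := bk_nonneg a n k
    rw [hz, normSq_factor]
    refine (factor_bound (by positivity) ?_ (by positivity) ?_).trans (le_of_eq ?_)
    · exact (mul_le_mul_of_nonneg_right hx2 hb0).trans (hb1 k)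
    · exact (mul_le_mul_of_nonneg_right hy2 hb0).trans (hb1 k)
    · congr 1
      ring
  have hN : ∀ N, ‖∏ k ∈ range N, (1 - z ^ 2 * (bk a n k : ℂ))‖ ^ 2 ≤
      Real.exp ((-2 * x ^ 2 + 40 * y ^ 2) * ∑ k ∈ range N, bk a n k) := by
    intro N
    rw [norm_prod, ← Finset.prod_pow, Finset.mul_sum, Real.exp_sum]
    exact Finset.prod_le_prod (fun k _ => by positivity) (fun k _ => hfac k)
  have h1 := ((Sp_tendsto a n z).norm).pow 2
  have h2 := ((bk_summable a n).hasSum.tendsto_sum_nat).const_mul (-2 * x ^ 2 + 40 * y ^ 2)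
  have h3 := (Real.continuous_exp.tendsto _).comp h2
  exact le_of_tendsto_of_tendsto' h1 h3 hN

theorem norm_lin_le {c x y y' : ℝ} (h : |y| ≤ |y'|) :
    ‖(x : ℂ) + y * Complex.I - c‖ ≤ ‖(x : ℂ) + y' * Complex.I - c‖ := by
  have h1 : ∀ t : ℝ, ‖(x : ℂ) + t * Complex.I - c‖ ^ 2 = (x - c) ^ 2 + t ^ 2 := by
    intro t
    have h2 : (x : ℂ) + t * Complex.I - c = ((x - c : ℝ) : ℂ) + (t : ℂ) * Complex.I := by
      push_cast
      ring
    rw [h2, ← Complex.normSq_eq_norm_sq, Complex.normSq_add_mul_I]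
  have h3 : y ^ 2 ≤ y' ^ 2 := sq_le_sq.2 h
  apply le_of_sq_le_sq _ (norm_nonneg _)
  rw [h1, h1]
  linarith

theorem norm_lin_le' {c x y y' : ℝ} (h : |y| ≤ |y'|) :
    ‖1 - ((x : ℂ) + y * Complex.I) * c‖ ≤ ‖1 - ((x : ℂ) + y' * Complex.I) * c‖ := by
  have h1 : ∀ t : ℝ, ‖1 - ((x : ℂ) + t * Complex.I) * c‖ ^ 2 = (1 - x * c) ^ 2 + (t * c) ^ 2 := by
    intro t
    have h2 : 1 - ((x : ℂ) + t * Complex.I) * c =
        ((1 - x * c : ℝ) : ℂ) + ((-(t * c) : ℝ) : ℂ) * Complex.I := by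
      push_cast
      ring
    rw [h2, ← Complex.normSq_eq_norm_sq, Complex.normSq_add_mul_I]
    ring
  have h3 : y ^ 2 ≤ y' ^ 2 := sq_le_sq.2 h
  apply le_of_sq_le_sq _ (norm_nonneg _)
  rw [h1, h1, mul_pow, mul_pow]
  nlinarith [sq_nonneg c]

theorem mono : S_Mono := by
  intro a n P ha hP x y y' h
  rw [norm_mul, norm_mul]
  have h1 : ‖P.eval ((x : ℂ) + y * Complex.I)‖ ≤ ‖P.eval ((x : ℂ) + y' * Complex.I)‖ := by
    by_cases hP0 : P = 0
    · simp [hP0]
    have hs := IsAlgClosed.splits P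
    have he := hs.eq_prod_roots
    have hr : ∀ r ∈ P.roots, r.im = 0 := by
      intro r hr
      apply hP
      exact (mem_roots hP0).1 hr
    have key : ∀ s : Multiset ℂ, (∀ r ∈ s, r.im = 0) →
        ‖((s.map fun r => X - C r).prod).eval ((x : ℂ) + y * Complex.I)‖ ≤
          ‖((s.map fun r => X - C r).prod).eval ((x : ℂ) + y' * Complex.I)‖ := by
      intro s
      induction s using Multiset.induction_on with
      | empty => simp
      | cons r s ih =>
        intro hs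
        rw [Multiset.map_cons, Multiset.prod_cons, eval_mul, eval_mul, norm_mul, norm_mul]
        have h2 : r = ((r.re : ℝ) : ℂ) := by
          apply Complex.ext
          · simp
          · simp [hs r (Multiset.mem_cons_self r s)]
        refine mul_le_mul ?_ (ih fun t ht => hs t (Multiset.mem_cons_of_mem ht)) (norm_nonneg _)
          (norm_nonneg _)
        rw [eval_sub, eval_X, eval_C, eval_sub, eval_X, eval_C, h2]
        exact norm_lin_le h
    rw [he, eval_mul, eval_mul, norm_mul, norm_mul, eval_C, eval_C]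
    exact mul_le_mul_of_nonneg_left (key _ hr) (norm_nonneg _)
  have h2 : ‖Sp a n ((x : ℂ) + y * Complex.I)‖ ≤ ‖Sp a n ((x : ℂ) + y' * Complex.I)‖ := by
    refine le_of_tendsto_of_tendsto' (Sp_tendsto a n _).norm (Sp_tendsto a n _).norm fun N => ?_
    rw [norm_prod, norm_prod]
    refine Finset.prod_le_prod (fun k _ => norm_nonneg _) fun k _ => ?_
    have h3 : ∀ z : ℂ, 1 - z ^ 2 * (bk a n k : ℂ) =
        (1 - z * ((1 / xk a (n + 1 + k) : ℝ) : ℂ)) *
          (1 - z * ((-(1 / xk a (n + 1 + k)) : ℝ) : ℂ)) := by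
      intro z
      unfold bk
      push_cast
      ring
    rw [h3, h3, norm_mul, norm_mul]
    exact mul_le_mul (norm_lin_le' h) (norm_lin_le' h) (norm_nonneg _) (norm_nonneg _)
  exact mul_le_mul h1 h2 (norm_nonneg _) (norm_nonneg _)

theorem hur : S_Hur := by
  intro ι l _ F G hG hG0 hF hmono z hz
  by_contra hy
  have hmonoG : ∀ x y y' : ℝ, |y| ≤ |y'| →
      ‖G (x + y * Complex.I)‖ ≤ ‖G (x + y' * Complex.I)‖ := by
    intro x y y' h
    refine le_of_tendsto_of_tendsto (hF _).norm (hF _).norm ?_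
    filter_upwards [hmono] with i hi
    exact hi x y y' h
  have hzero : ∀ y : ℝ, |y| ≤ |z.im| → G (z.re + y * Complex.I) = 0 := by
    intro y h
    have h1 := hmonoG z.re y z.im h
    rw [Complex.re_add_im, hz, norm_zero] at h1
    exact norm_le_zero_iff.1 h1
  have hana : AnalyticOnNhd ℂ G Set.univ := (Complex.analyticOnNhd_univ_iff_differentiable).2 hG
  have hfreq : ∃ᶠ w in 𝓝[≠] (z.re : ℂ), G w = 0 := by
    have ht : Tendsto (fun y : ℝ => (z.re : ℂ) + y * Complex.I) (𝓝[≠] 0) (𝓝[≠] (z.re : ℂ)) := by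
      apply tendsto_nhdsWithin_of_tendsto_nhds_of_eventually_within
      · have hc : Continuous fun y : ℝ => (z.re : ℂ) + y * Complex.I := by fun_prop
        have h1 := hc.tendsto 0
        simp only [Complex.ofReal_zero, zero_mul, add_zero] at h1
        exact h1.mono_left nhdsWithin_le_nhds
      · filter_upwards [self_mem_nhdsWithin] with y hy0
        intro h
        have h1 : (y : ℂ) * Complex.I = 0 := by
          have h2 : (z.re : ℂ) + y * Complex.I = z.re := h
          linear_combination h2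
        have h3 : (y : ℂ) = 0 := (mul_eq_zero.1 h1).resolve_right Complex.I_ne_zero
        exact hy0 (by exact_mod_cast h3)
    apply ht.frequently
    apply Filter.Eventually.frequently
    have hpos : 0 < |z.im| := abs_pos.2 hy
    have h1 : ∀ᶠ y : ℝ in 𝓝 (0 : ℝ), |y| < |z.im| := by
      have hc : Continuous fun y : ℝ => |y| := continuous_abs
      have := hc.tendsto 0
      rw [abs_zero] at this
      exact this.eventually (gt_mem_nhds hpos)
    filter_upwards [h1.filter_mono nhdsWithin_le_nhds] with y hy'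
    exact hzero y hy'.le
  have h2 := hana.eqOn_zero_of_preconnected_of_frequently_eq_zero isPreconnected_univ
    (Set.mem_univ (z.re : ℂ)) hfreq
  exact hG0 (h2 (Set.mem_univ 0))

end Pool.Agent.Q237.CD
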