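import Mathlib
import Pool.Agent.Q240.CD.Stm
import Pool.Agent.Q280.CD2.Del

set_option autoImplicit false

/-!
# The bound for the values of polynomials
-/

open Polynomial Filter Topology Finset

namespace Pool.Agent.Q237.CD

open Pool.Agent.Q240.CD Pool.Agent.Q280.CD2

variable {g M : ℕ → ℝ} {n : ℕ}

theorem pm_le (h : PM g M n) {m : ℕ} (hm : m ≤ n) : PM g M m where
  mono := h.mono
  pos := h.pos
  nonneg := h.nonneg
  sum := by
    refine Summable.of_nonneg_of_le (fun j => ?_) (fun j => ?_) h.sum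
    · have := gpos h j
      exact mul_nonneg (h.nonneg j) (by positivity)
    · have := gpos h j
      refine mul_le_mul_of_nonneg_left ?_ (h.nonneg j)
      exact pow_le_pow_right₀ (by linarith) (by omega)
  dfn := fun q hq hq0 => h.dfn q (hq.trans hm) hq0

theorem ex_bound (h : PM g M n) {t : ℝ} {k : ℝ[X]} (hk : Ex g M n t k) (p : ℝ[X])
    (hp : p.natDegree ≤ n) : p.eval t ^ 2 * Lam g M (k * k) ≤ Lam g M (p * p) := by
  by_cases h0 : p.eval t = 0
  · rw [h0, zero_pow two_ne_zero, zero_mul]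
    exact lam_nonneg h p
  · have h1 := ex_min h hk (Q := C ((p.eval t)⁻¹) * p) ((natDegree_C_mul_le _ _).trans hp)
      (by rw [eval_mul, eval_C, inv_mul_cancel₀ h0])
    have h2 : C ((p.eval t)⁻¹) * p * (C ((p.eval t)⁻¹) * p) = C (((p.eval t) ^ 2)⁻¹) * (p * p) := by
      rw [← inv_pow, C_pow]
      ring
    rw [h2, lam_C_mul] at h1
    have h3 : 0 < p.eval t ^ 2 := by positivity
    calc p.eval t ^ 2 * Lam g M (k * k) ≤ p.eval t ^ 2 * (((p.eval t) ^ 2)⁻¹ * Lam g M (p * p)) :=
          mul_le_mul_of_nonneg_left h1 h3.le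
      _ = Lam g M (p * p) := by
          rw [← mul_assoc, mul_inv_cancel₀ h3.ne', one_mul]

theorem lam_mono (h : PM g M n) {p k : ℝ[X]} (hp : p.natDegree ≤ n) (hk : k.natDegree ≤ n) (c : ℝ)
    (hle : ∀ j, p.eval (g j) ^ 2 ≤ c * k.eval (g j) ^ 2) :
    Lam g M (p * p) ≤ c * Lam g M (k * k) := by
  unfold Lam
  rw [← tsum_mul_left]
  refine Summable.tsum_le_tsum (fun j => ?_) (summable_eval h _ (deg_mul hp hp))
    ((summable_eval h _ (deg_mul hk hk)).mul_left c)
  have h1 := mul_le_mul_of_nonneg_left (hle j) (h.nonneg j)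
  rw [eval_mul, eval_mul]
  nlinarith

theorem mj_mono (g : ℕ → ℝ) {n m : ℕ} (h : n ≤ m) (t : ℝ) : mj g n t ≤ mj g m t := by
  unfold mj
  refine Finset.prod_le_prod_of_subset_of_one_le (range_mono h) (fun j _ => ?_) fun j _ _ => ?_
  · exact zero_le_one.trans (le_max_left _ _)
  · exact le_max_left _ _

theorem one_le_mj (g : ℕ → ℝ) (n : ℕ) (t : ℝ) : 1 ≤ mj g n t := by
  have h := mj_mono g (Nat.zero_le n) t
  simpa [mj] using h

theorem rest_bound {g c : ℕ → ℝ} {D : ℕ} (hg : ∀ j, 0 < g j) (hc : ∀ i < D, g i < c (i + 1))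
    {t : ℝ} (ht : 0 ≤ t) :
    |∏ i ∈ range D, (t - c (i + 1))| ≤ |∏ i ∈ range D, (0 - c (i + 1))| * mj g D t := by
  rw [Finset.abs_prod, Finset.abs_prod]
  unfold mj
  rw [← Finset.prod_mul_distrib]
  refine Finset.prod_le_prod (fun i _ => abs_nonneg _) fun i hi => ?_
  have hi' := hc i (Finset.mem_range.1 hi)
  have hgi := hg i
  have hci : 0 < c (i + 1) := hgi.trans hi'
  have e1 : |0 - c (i + 1)| = c (i + 1) := by
    rw [zero_sub, abs_neg, abs_of_pos hci]
  rw [e1]
  have h1 : c (i + 1) ≤ c (i + 1) * max 1 (t / g i) := by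
    have := le_max_left 1 (t / g i)
    nlinarith
  have h2 : t ≤ c (i + 1) * max 1 (t / g i) := by
    have h3 := le_max_right 1 (t / g i)
    have h4 : t = g i * (t / g i) := by field_simp
    have h5 : 0 ≤ t / g i := div_nonneg ht hgi.le
    calc t = g i * (t / g i) := h4
      _ ≤ c (i + 1) * (t / g i) := mul_le_mul_of_nonneg_right hi'.le h5
      _ ≤ c (i + 1) * max 1 (t / g i) := mul_le_mul_of_nonneg_left h3 hci.le
  rw [abs_le]
  constructor
  · linarith
  · linarith

/-- The bound for the extremal polynomials. -/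
theorem main_bound (hZ : S_Zer) (h : PM g M n) {q0 : ℝ[X]} (h0 : Ex g M n 0 q0) {m : ℕ}
    (hm : m ≤ n) {t : ℝ} (ht : 0 ≤ t) (htg : ∀ j, g j ≠ t) {k : ℝ[X]} (hk : Ex g M m t k) :
    Lam g M (q0 * q0) ≤ Cg g * (1 + t) ^ 2 * mj g (m - 1) t ^ 2 * Lam g M (k * k) := by
  have hg : ∀ j, 0 < g j := gpos h
  have hg0 := hg 0
  have hδ := lam_nonneg h q0
  have hm' := pm_le h hm
  obtain ⟨c, A, hA, hq, hinc, hsep, -⟩ := hZ g M m hm' t k htg hk
  have hkd := hk.1
  have hkt := hk.2.1
  have hkk := lam_nonneg h k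
  have hmj := one_le_mj g (m - 1) t
  have h2g : 1 + 2 / g 0 ≤ 2 * (1 + 1 / g 0) := by
    have : 2 / g 0 = 2 * (1 / g 0) := by ring
    rw [this]
    linarith
  have hig : 0 < 1 / g 0 := by positivity
  rcases Nat.eq_zero_or_pos k.natDegree with hd | hd
  · -- constant
    have h1 := ex_bound h h0 k (by omega)
    have h2 : k.eval 0 = 1 := by
      rw [hq, hd] at hkt ⊢
      simpa using hkt
    rw [h2, one_pow, one_mul] at h1
    refine h1.trans ?_
    have h3 : 1 ≤ Cg g * (1 + t) ^ 2 * mj g (m - 1) t ^ 2 := by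
      unfold Cg
      have e1 : 1 ≤ (1 + g 0) ^ 2 := one_le_pow₀ (by linarith)
      have e2 : 1 ≤ (1 + 1 / g 0) ^ 2 := one_le_pow₀ (by linarith)
      have e3 : 1 ≤ (1 + t) ^ 2 := one_le_pow₀ (by linarith)
      have e4 : 1 ≤ mj g (m - 1) t ^ 2 := one_le_pow₀ hmj
      have e5 : 1 ≤ 4 * (1 + g 0) ^ 2 := by linarith
      exact one_le_mul_of_one_le_of_one_le (one_le_mul_of_one_le_of_one_le
        (one_le_mul_of_one_le_of_one_le e5 e2) e3) e4
    nlinarith
  · obtain ⟨D, hD⟩ : ∃ D, k.natDegree = D + 1 := ⟨k.natDegree - 1, by omega⟩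
    rw [hD] at hq hinc hsep
    set R : ℝ[X] := ∏ i ∈ range D, (X - C (c (i + 1))) with hR
    have hkR : k = C A * (R * (X - C (c 0))) := by
      rw [hq, Finset.prod_range_succ']
    have hRe : ∀ s : ℝ, R.eval s = ∏ i ∈ range D, (s - c (i + 1)) := by
      intro s
      rw [hR, eval_prod]
      simp
    have hke : ∀ s : ℝ, k.eval s = A * (R.eval s * (s - c 0)) := by
      intro s
      rw [hkR]
      simp
    have hrest : |R.eval t| ≤ |R.eval 0| * mj g (m - 1) t := by
      rw [hRe, hRe]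
      refine (rest_bound hg (fun i hi => hsep i (by omega)) ht).trans ?_
      exact mul_le_mul_of_nonneg_left (mj_mono g (by omega) t) (abs_nonneg _)
    have h1 : 1 = |A| * (|R.eval t| * |t - c 0|) := by
      rw [← abs_mul, ← abs_mul, ← hke, hkt, abs_one]
    by_cases hc : -1 ≤ c 0 ∧ c 0 ≤ g 0 / 2
    · -- replace the first zero
      set p : ℝ[X] := C A * (R * (X + C 1)) with hp
      have hpe : ∀ s : ℝ, p.eval s = A * (R.eval s * (s + 1)) := by
        intro s
        rw [hp]
        simp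
      have hpd : p.natDegree ≤ n := by
        have e1 : R.natDegree ≤ D := by
          rw [hR]
          refine (natDegree_prod_le _ _).trans ?_
          refine (Finset.sum_le_card_nsmul _ _ 1 fun i _ => ?_).trans (by simp)
          exact (natDegree_X_sub_C _).le
        refine (natDegree_C_mul_le _ _).trans (natDegree_mul_le.trans ?_)
        have e2 : (X + C 1 : ℝ[X]).natDegree = 1 := natDegree_X_add_C _
        omega
      have e1 := ex_bound h h0 p hpd
      have e2 : Lam g M (p * p) ≤ (2 * (1 + 1 / g 0)) ^ 2 * Lam g M (k * k) := by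
        refine lam_mono h hpd (by omega) _ fun j => ?_
        rw [hpe, hke]
        have hgj : g 0 ≤ g j := h.mono.monotone (Nat.zero_le j)
        have hpos : 0 < g j + 1 := by
          have := hg j
          linarith
        have e3 : g j + 1 ≤ 2 * (1 + 1 / g 0) * (g j - c 0) := by
          have f1 : g j / 2 ≤ g j - c 0 := by linarith [hc.2]
          have f2 : 1 ≤ 1 / g 0 * g j := by
            rw [div_mul_eq_mul_div, one_mul, le_div_iff₀ hg0]
            linarith
          have f3 : 2 * (1 + 1 / g 0) * (g j / 2) ≤ 2 * (1 + 1 / g 0) * (g j - c 0) :=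
            mul_le_mul_of_nonneg_left f1 (by positivity)
          nlinarith
        have e4 : (g j + 1) ^ 2 ≤ (2 * (1 + 1 / g 0) * (g j - c 0)) ^ 2 :=
          pow_le_pow_left₀ hpos.le e3 2
        have e5 : 0 ≤ (A * R.eval (g j)) ^ 2 := sq_nonneg _
        calc (A * (R.eval (g j) * (g j + 1))) ^ 2 = (A * R.eval (g j)) ^ 2 * (g j + 1) ^ 2 := by ring
          _ ≤ (A * R.eval (g j)) ^ 2 * (2 * (1 + 1 / g 0) * (g j - c 0)) ^ 2 :=
              mul_le_mul_of_nonneg_left e4 e5
          _ = _ := by ring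
      have e3 : 1 ≤ |p.eval 0| * ((1 + t) * (1 + g 0) * mj g (m - 1) t) := by
        rw [hpe, zero_add, mul_one, abs_mul]
        conv_lhs => rw [h1]
        have f1 : |t - c 0| ≤ (1 + t) * (1 + g 0) := by
          rw [abs_le]
          constructor
          · nlinarith [hc.1, hc.2]
          · nlinarith [hc.1, hc.2]
        have f2 : |R.eval t| * |t - c 0| ≤
            (|R.eval 0| * mj g (m - 1) t) * ((1 + t) * (1 + g 0)) :=
          mul_le_mul hrest f1 (abs_nonneg _) (by positivity)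
        have f3 := mul_le_mul_of_nonneg_left f2 (abs_nonneg A)
        refine f3.trans (le_of_eq (by ring))
      have e4 : 1 ≤ p.eval 0 ^ 2 * ((1 + t) * (1 + g 0) * mj g (m - 1) t) ^ 2 := by
        have f1 : 1 ≤ (|p.eval 0| * ((1 + t) * (1 + g 0) * mj g (m - 1) t)) ^ 2 := one_le_pow₀ e3
        rwa [mul_pow, sq_abs] at f1
      set B := ((1 + t) * (1 + g 0) * mj g (m - 1) t) ^ 2 with hB
      have hB0 : 0 ≤ B := sq_nonneg _
      calc Lam g M (q0 * q0) ≤ (p.eval 0 ^ 2 * B) * Lam g M (q0 * q0) := by nlinarith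
        _ = B * (p.eval 0 ^ 2 * Lam g M (q0 * q0)) := by ring
        _ ≤ B * Lam g M (p * p) := mul_le_mul_of_nonneg_left e1 hB0
        _ ≤ B * ((2 * (1 + 1 / g 0)) ^ 2 * Lam g M (k * k)) := mul_le_mul_of_nonneg_left e2 hB0
        _ = Cg g * (1 + t) ^ 2 * mj g (m - 1) t ^ 2 * Lam g M (k * k) := by
            rw [hB]
            unfold Cg
            ring
    · have hc' : c 0 < -1 ∨ g 0 / 2 < c 0 := by
        by_contra hne
        push Not at hne
        exact hc ⟨hne.1, hne.2⟩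
      have hc0 : c 0 ≠ 0 := by
        rcases hc' with h2 | h2
        · linarith
        · linarith
      have e1 := ex_bound h h0 k (by omega)
      have f1 : |t - c 0| ≤ |c 0| * ((1 + t) * (2 * (1 + 1 / g 0))) := by
        rcases hc' with h2 | h2
        · have e1 : |c 0| = -c 0 := abs_of_neg (by linarith)
          rw [e1, abs_of_nonneg (by linarith)]
          have e2 : 1 ≤ 2 * (1 + 1 / g 0) := by linarith
          have e3 : (-c 0) * ((1 + t) * 1) ≤ (-c 0) * ((1 + t) * (2 * (1 + 1 / g 0))) := by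
            apply mul_le_mul_of_nonneg_left _ (by linarith)
            exact mul_le_mul_of_nonneg_left e2 (by linarith)
          nlinarith
        · have hcp : 0 < c 0 := by linarith
          rw [abs_of_pos hcp]
          have e2 : t ≤ c 0 * (t * (2 / g 0)) := by
            have e4 : 1 ≤ c 0 * (2 / g 0) := by
              rw [mul_div_assoc', le_div_iff₀ hg0]
              linarith
            nlinarith
          have e3 : c 0 * ((1 + t) * (1 + 2 / g 0)) ≤ c 0 * ((1 + t) * (2 * (1 + 1 / g 0))) := by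
            apply mul_le_mul_of_nonneg_left _ hcp.le
            exact mul_le_mul_of_nonneg_left h2g (by linarith)
          have e5 : 0 ≤ 2 / g 0 := by positivity
          have e6 : c 0 + c 0 * (t * (2 / g 0)) ≤ c 0 * ((1 + t) * (1 + 2 / g 0)) := by
            nlinarith [mul_nonneg hcp.le ht, mul_nonneg hcp.le e5]
          rw [abs_le]
          constructor
          · nlinarith
          · nlinarith
      have e3 : 1 ≤ |k.eval 0| * ((1 + t) * (2 * (1 + 1 / g 0)) * mj g (m - 1) t) := by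
        rw [hke, zero_sub, abs_mul, abs_mul, abs_neg]
        conv_lhs => rw [h1]
        have f2 : |R.eval t| * |t - c 0| ≤
            (|R.eval 0| * mj g (m - 1) t) * (|c 0| * ((1 + t) * (2 * (1 + 1 / g 0)))) :=
          mul_le_mul hrest f1 (abs_nonneg _) (by positivity)
        have f3 := mul_le_mul_of_nonneg_left f2 (abs_nonneg A)
        refine f3.trans (le_of_eq (by ring))
      have e4 : 1 ≤ k.eval 0 ^ 2 * ((1 + t) * (2 * (1 + 1 / g 0)) * mj g (m - 1) t) ^ 2 := by
        have f1 : 1 ≤ (|k.eval 0| * ((1 + t) * (2 * (1 + 1 / g 0)) * mj g (m - 1) t)) ^ 2 :=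
          one_le_pow₀ e3
        rwa [mul_pow, sq_abs] at f1
      set B := ((1 + t) * (2 * (1 + 1 / g 0)) * mj g (m - 1) t) ^ 2 with hB
      have hB0 : 0 ≤ B := sq_nonneg _
      have e5 : B ≤ Cg g * (1 + t) ^ 2 * mj g (m - 1) t ^ 2 := by
        have f1 : Cg g * (1 + t) ^ 2 * mj g (m - 1) t ^ 2 = (1 + g 0) ^ 2 * B := by
          rw [hB]
          unfold Cg
          ring
        rw [f1]
        have f2 : 1 ≤ (1 + g 0) ^ 2 := one_le_pow₀ (by linarith)
        nlinarith
      calc Lam g M (q0 * q0) ≤ (k.eval 0 ^ 2 * B) * Lam g M (q0 * q0) := by nlinarith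
        _ = B * (k.eval 0 ^ 2 * Lam g M (q0 * q0)) := by ring
        _ ≤ B * Lam g M (k * k) := mul_le_mul_of_nonneg_left e1 hB0
        _ ≤ _ := mul_le_mul_of_nonneg_right e5 hkk

theorem mj_continuous (g : ℕ → ℝ) (n : ℕ) : Continuous (mj g n) := by
  unfold mj
  fun_prop

theorem kb (hZ : S_Zer) : S_Kb := by
  intro g M n h q0 h0 m q t hm hq ht
  have hm' := pm_le h hm
  have key : ∀ s : ℝ, 0 ≤ s → (∀ j, g j ≠ s) →
      q.eval s ^ 2 * Lam g M (q0 * q0) ≤
        Cg g * (1 + s) ^ 2 * mj g (m - 1) s ^ 2 * Lam g M (q * q) := by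
    intro s hs hsg
    obtain ⟨k, hk⟩ := ext g M m hm' s
    have h1 := main_bound hZ h h0 hm hs hsg hk
    have h2 := ex_bound hm' hk q hq
    have hB : 0 ≤ Cg g * (1 + s) ^ 2 * mj g (m - 1) s ^ 2 := by
      unfold Cg
      positivity
    calc q.eval s ^ 2 * Lam g M (q0 * q0)
        ≤ q.eval s ^ 2 * (Cg g * (1 + s) ^ 2 * mj g (m - 1) s ^ 2 * Lam g M (k * k)) :=
          mul_le_mul_of_nonneg_left h1 (sq_nonneg _)
      _ = Cg g * (1 + s) ^ 2 * mj g (m - 1) s ^ 2 * (q.eval s ^ 2 * Lam g M (k * k)) := by ring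
      _ ≤ _ := mul_le_mul_of_nonneg_left h2 hB
  by_contra hne
  push Not at hne
  have hc1 : Continuous fun s : ℝ => q.eval s ^ 2 * Lam g M (q0 * q0) := by fun_prop
  have hc2 : Continuous fun s : ℝ =>
      Cg g * (1 + s) ^ 2 * mj g (m - 1) s ^ 2 * Lam g M (q * q) := by
    have := mj_continuous g (m - 1)
    fun_prop
  have hopen : IsOpen {s : ℝ | Cg g * (1 + s) ^ 2 * mj g (m - 1) s ^ 2 * Lam g M (q * q) <
      q.eval s ^ 2 * Lam g M (q0 * q0)} := isOpen_lt hc2 hc1
  have hev : ∀ᶠ s in 𝓝[>] t, s ∈ {s : ℝ | Cg g * (1 + s) ^ 2 * mj g (m - 1) s ^ 2 *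
      Lam g M (q * q) < q.eval s ^ 2 * Lam g M (q0 * q0)} :=
    mem_nhdsWithin_of_mem_nhds (hopen.mem_nhds hne)
  obtain ⟨s1, hs1, hs1'⟩ := (hev.and self_mem_nhdsWithin).exists
  have hopen2 := hopen.inter (isOpen_Ioi (a := t))
  have hdense : Dense (Set.range g)ᶜ := (Set.countable_range g).dense_compl ℝ
  obtain ⟨s, hs, hsg⟩ := hdense.exists_mem_open hopen2 ⟨s1, hs1, hs1'⟩
  have h3 := key s (ht.trans (le_of_lt hsg.2)) (fun j hj => hs ⟨j, hj⟩)
  exact absurd h3 (not_le.2 hsg.1)

end Pool.Agent.Q237.CD
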