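import Mathlib
import Pool.Agent.Q240.CD.Stm
import Pool.Agent.Q237.CD.SpB

set_option autoImplicit false

/-!
# Convergence of real rooted polynomials
-/

open Polynomial Filter Topology Finset

namespace Pool.Agent.Q237.CD

open Pool.Agent.Q240.CD

/-- Taylor coefficients at zero. -/
noncomputable def tc (F : ℂ → ℂ) (m : ℕ) : ℂ := (m.factorial : ℂ)⁻¹ * iteratedDeriv m F 0

theorem tc_hasSum {F : ℂ → ℂ} (hF : Differentiable ℂ F) (z : ℂ) :
    HasSum (fun m => tc F m * z ^ m) (F z) := by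
  have h := Complex.hasSum_taylorSeries_of_entire hF 0 z
  simp only [sub_zero, smul_eq_mul] at h
  have e : (fun m => tc F m * z ^ m) = fun n : ℕ => ((n.factorial : ℂ))⁻¹ *
      (z ^ n * iteratedDeriv n F 0) := by
    funext m
    unfold tc
    ring
  rw [e]
  exact h

theorem tc_bound {F : ℂ → ℂ} (hF : Differentiable ℂ F) {R B : ℝ} (hR : 0 < R)
    (hB : ∀ z : ℂ, ‖z‖ ≤ R → ‖F z‖ ≤ B) (m : ℕ) : ‖tc F m‖ * R ^ m ≤ B := by
  have h := Complex.norm_iteratedDeriv_le_of_forall_mem_sphere_norm_le m hR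
    (hF.diffContOnCl (s := Metric.ball (0 : ℂ) R)) (fun z hz => hB z (by
      have := mem_sphere_iff_norm.1 hz
      rw [sub_zero] at this
      exact this.le))
  unfold tc
  rw [norm_mul, norm_inv, Complex.norm_natCast]
  have hf : (0 : ℝ) < m.factorial := by exact_mod_cast m.factorial_pos
  have hRm : 0 < R ^ m := pow_pos hR m
  rw [le_div_iff₀ hRm] at h
  rw [inv_mul_eq_div, div_mul_eq_mul_div, div_le_iff₀ hf]
  linarith

/-- The coefficients converge to zero. -/
theorem tc_tendsto {ι : Type} {l : Filter ι} {F : ι → ℂ → ℂ}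
    (hF : ∀ᶠ i in l, Differentiable ℂ (F i))
    (hb : ∀ R : ℝ, ∃ B : ℝ, ∀ᶠ i in l, ∀ z : ℂ, ‖z‖ ≤ R → ‖F i z‖ ≤ B)
    {T : ℝ} (hT : 0 < T) (ht : ∀ t : ℝ, 0 < t → t ≤ T → Tendsto (fun i => F i (t : ℂ)) l (𝓝 0)) :
    ∀ k : ℕ, Tendsto (fun i => tc (F i) k) l (𝓝 0) := by
  intro k
  induction k using Nat.strong_induction_on with
  | _ k ih =>
    obtain ⟨B0, hB0⟩ := hb 1
    set B := max B0 1 with hB
    have hB1 : 1 ≤ B := le_max_right _ _
    rw [Metric.tendsto_nhds]
    intro ε hε
    -- the point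
    set t : ℝ := min T (min (1 / 2) (ε / (8 * B))) with htd
    have ht0 : 0 < t := by
      rw [htd]
      have : 0 < ε / (8 * B) := by positivity
      exact lt_min hT (lt_min (by norm_num) this)
    have htT : t ≤ T := min_le_left _ _
    have ht2 : t ≤ 1 / 2 := (min_le_right _ _).trans (min_le_left _ _)
    have htε : t ≤ ε / (8 * B) := (min_le_right _ _).trans (min_le_right _ _)
    have hlim : Tendsto (fun i => F i (t : ℂ) - ∑ m ∈ range k, tc (F i) m * (t : ℂ) ^ m) l
        (𝓝 0) := by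
      have h1 : Tendsto (fun i => ∑ m ∈ range k, tc (F i) m * (t : ℂ) ^ m) l (𝓝 0) := by
        have h2 := tendsto_finsetSum (range k) (fun m hm =>
          (ih m (Finset.mem_range.1 hm)).mul_const ((t : ℂ) ^ m))
        simpa using h2
      simpa using (ht t ht0 htT).sub h1
    have hsmall : ∀ᶠ i in l, ‖F i (t : ℂ) - ∑ m ∈ range k, tc (F i) m * (t : ℂ) ^ m‖ <
        ε / 4 * t ^ k := by
      have h1 := hlim.norm
      rw [norm_zero] at h1
      exact h1.eventually (gt_mem_nhds (by positivity))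
    filter_upwards [hsmall, hF, hB0] with i hi hFi hBi
    rw [dist_zero_right]
    have hcoef : ∀ m, ‖tc (F i) m‖ ≤ B := by
      intro m
      have := tc_bound hFi one_pos hBi m
      rw [one_pow, mul_one] at this
      exact this.trans (le_max_left _ _)
    have hs := tc_hasSum hFi (t : ℂ)
    have h1 := hs.summable.sum_add_tsum_nat_add (k + 1)
    rw [hs.tsum_eq, Finset.sum_range_succ] at h1
    have htail : ‖∑' m, tc (F i) (m + (k + 1)) * (t : ℂ) ^ (m + (k + 1))‖ ≤
        2 * B * t ^ (k + 1) := by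
      have hg : HasSum (fun m : ℕ => B * t ^ (k + 1) * t ^ m) (B * t ^ (k + 1) * (1 - t)⁻¹) :=
        (hasSum_geometric_of_lt_one ht0.le (by linarith)).mul_left _
      refine (tsum_of_norm_bounded hg fun m => ?_).trans ?_
      · rw [norm_mul, norm_pow, Complex.norm_real, Real.norm_eq_abs, abs_of_pos ht0]
        have e : B * t ^ (k + 1) * t ^ m = B * t ^ (m + (k + 1)) := by ring
        rw [e]
        exact mul_le_mul_of_nonneg_right (hcoef _) (by positivity)
      · have h2 : (1 - t)⁻¹ ≤ 2 := by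
          rw [inv_le_comm₀ (by linarith) (by norm_num)]
          linarith
        have h3 : 0 ≤ B * t ^ (k + 1) := by positivity
        calc B * t ^ (k + 1) * (1 - t)⁻¹ ≤ B * t ^ (k + 1) * 2 :=
              mul_le_mul_of_nonneg_left h2 h3
          _ = 2 * B * t ^ (k + 1) := by ring
    have h2 : tc (F i) k * (t : ℂ) ^ k =
        (F i (t : ℂ) - ∑ m ∈ range k, tc (F i) m * (t : ℂ) ^ m) -
          ∑' m, tc (F i) (m + (k + 1)) * (t : ℂ) ^ (m + (k + 1)) := by
      rw [← h1]
      ring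
    have h3 : ‖tc (F i) k‖ * t ^ k ≤ ε / 4 * t ^ k + 2 * B * t ^ (k + 1) := by
      have h4 : ‖tc (F i) k * (t : ℂ) ^ k‖ = ‖tc (F i) k‖ * t ^ k := by
        rw [norm_mul, norm_pow, Complex.norm_real, Real.norm_eq_abs, abs_of_pos ht0]
      rw [← h4, h2]
      exact (norm_sub_le _ _).trans (add_le_add hi.le htail)
    have htk : 0 < t ^ k := pow_pos ht0 k
    have h5 : ‖tc (F i) k‖ ≤ ε / 4 + 2 * B * t := by
      have h6 : ‖tc (F i) k‖ * t ^ k ≤ (ε / 4 + 2 * B * t) * t ^ k := by
        refine h3.trans (le_of_eq ?_)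
        ring
      exact le_of_mul_le_mul_right h6 htk
    have h7 : 2 * B * t ≤ ε / 4 := by
      have h8 : 2 * B * t ≤ 2 * B * (ε / (8 * B)) := mul_le_mul_of_nonneg_left htε (by positivity)
      refine h8.trans (le_of_eq ?_)
      field_simp
      norm_num
    linarith

/-- Locally bounded entire functions converging to zero on an interval converge to zero locally
uniformly. -/
theorem vitali {ι : Type} {l : Filter ι} {F : ι → ℂ → ℂ}
    (hF : ∀ᶠ i in l, Differentiable ℂ (F i))
    (hb : ∀ R : ℝ, ∃ B : ℝ, ∀ᶠ i in l, ∀ z : ℂ, ‖z‖ ≤ R → ‖F i z‖ ≤ B)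
    {T : ℝ} (hT : 0 < T) (ht : ∀ t : ℝ, 0 < t → t ≤ T → Tendsto (fun i => F i (t : ℂ)) l (𝓝 0))
    (R ε : ℝ) (hε : 0 < ε) : ∀ᶠ i in l, ∀ z : ℂ, ‖z‖ ≤ R → ‖F i z‖ < ε := by
  have hc := tc_tendsto hF hb hT ht
  set r := max R 1 with hr
  have hr1 : 1 ≤ r := le_max_right _ _
  have hr0 : 0 < r := by linarith
  obtain ⟨B, hB⟩ := hb (2 * r)
  have hgeo : Summable fun m : ℕ => B * (1 / 2 : ℝ) ^ m :=
    (summable_geometric_of_lt_one (by norm_num) (by norm_num)).mul_left B
  have hlim : Tendsto (fun i => ∑' m, ‖tc (F i) m‖ * r ^ m) l (𝓝 (∑' _ : ℕ, (0 : ℝ))) := by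
    refine tendsto_tsum_of_dominated_convergence hgeo (fun m => ?_) ?_
    · have h1 := (hc m).norm.mul_const (r ^ m)
      simpa using h1
    · filter_upwards [hF, hB] with i hFi hBi m
      have h1 := tc_bound hFi (by positivity : 0 < 2 * r) hBi m
      rw [Real.norm_of_nonneg (by positivity), one_div, inv_pow, ← div_eq_mul_inv,
        le_div_iff₀ (by positivity)]
      rw [mul_pow] at h1
      linarith
  rw [tsum_zero] at hlim
  have hsm : ∀ᶠ i in l, ∑' m, ‖tc (F i) m‖ * r ^ m < ε := hlim.eventually (gt_mem_nhds hε)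
  filter_upwards [hsm, hF, hB] with i hi hFi hBi z hz
  refine lt_of_le_of_lt ?_ hi
  have hzr : ‖z‖ ≤ r := hz.trans (le_max_left _ _)
  have hsum : Summable fun m => ‖tc (F i) m‖ * r ^ m := by
    refine Summable.of_nonneg_of_le (fun m => by positivity) (fun m => ?_) hgeo
    have h1 := tc_bound hFi (by positivity : 0 < 2 * r) hBi m
    rw [one_div, inv_pow, ← div_eq_mul_inv, le_div_iff₀ (by positivity)]
    rw [mul_pow] at h1
    linarith
  have hs := tc_hasSum hFi z
  rw [← hs.tsum_eq]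
  refine tsum_of_norm_bounded hsum.hasSum fun m => ?_
  rw [norm_mul, norm_pow]
  exact mul_le_mul_of_nonneg_left (pow_le_pow_left₀ (norm_nonneg _) hzr m) (norm_nonneg _)

/-- The sum of the inverses of the roots. -/
noncomputable def sg (s : Multiset ℂ) : ℝ := (s.map fun r => 1 / ‖r‖).sum

theorem prod_upper (s : Multiset ℂ) (z : ℂ) :
    ‖(s.map fun r => 1 - z / r).prod‖ ≤ Real.exp (‖z‖ * sg s) := by
  induction s using Multiset.induction_on with
  | empty => simp [sg]
  | cons r s ih =>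
    have e : sg (r ::ₘ s) = 1 / ‖r‖ + sg s := by simp [sg]
    rw [Multiset.map_cons, Multiset.prod_cons, norm_mul, e, mul_add, Real.exp_add]
    refine mul_le_mul ?_ ih (norm_nonneg _) (Real.exp_pos _).le
    have h1 : ‖1 - z / r‖ ≤ 1 + ‖z‖ * (1 / ‖r‖) := by
      refine (norm_sub_le _ _).trans ?_
      rw [norm_one, norm_div, mul_one_div]
    have h2 := Real.add_one_le_exp (‖z‖ * (1 / ‖r‖))
    linarith

theorem prod_lower {T t : ℝ} (ht0 : 0 ≤ t) (htT : t ≤ T) (s : Multiset ℂ)
    (hs : ∀ r ∈ s, r.im = 0 ∧ T < r.re) :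
    ‖(s.map fun r => 1 - (t : ℂ) / r).prod‖ ≤ Real.exp (-(t * sg s)) := by
  induction s using Multiset.induction_on with
  | empty => simp [sg]
  | cons r s ih =>
    have e : sg (r ::ₘ s) = 1 / ‖r‖ + sg s := by simp [sg]
    have ih' := ih fun x hx => hs x (Multiset.mem_cons_of_mem hx)
    obtain ⟨h1, h2⟩ := hs r (Multiset.mem_cons_self r s)
    have hr : r = ((r.re : ℝ) : ℂ) := by
      apply Complex.ext
      · simp
      · simp [h1]
    have hpos : 0 < r.re := by linarith
    have hn : ‖r‖ = r.re := by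
      rw [hr, Complex.norm_real, Real.norm_eq_abs, Complex.ofReal_re, abs_of_pos hpos]
    rw [Multiset.map_cons, Multiset.prod_cons, norm_mul, e, mul_add, neg_add, Real.exp_add]
    refine mul_le_mul ?_ ih' (norm_nonneg _) (Real.exp_pos _).le
    have h3 : 1 - (t : ℂ) / r = ((1 - t / r.re : ℝ) : ℂ) := by
      push_cast
      rw [← hr]
    have h4 : t / r.re ≤ 1 := by
      rw [div_le_one hpos]
      linarith
    rw [h3, Complex.norm_real, Real.norm_eq_abs, abs_of_nonneg (by linarith), hn, mul_one_div]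
    have h5 := Real.add_one_le_exp (-(t / r.re))
    linarith

theorem eval_roots (P : ℂ[X]) (h0 : P.eval 0 = 1) (z : ℂ) :
    P.eval z = (P.roots.map fun r => 1 - z / r).prod := by
  have hP0 : P ≠ 0 := by
    rintro rfl
    simp at h0
  have he := (IsAlgClosed.splits P).eq_prod_roots
  have hr : ∀ r ∈ P.roots, r ≠ 0 := by
    rintro r hr rfl
    have := (mem_roots hP0).1 hr
    rw [IsRoot.def, h0] at this
    exact one_ne_zero this
  have key : ∀ s : Multiset ℂ, (∀ r ∈ s, r ≠ 0) → ∀ z : ℂ,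
      ((s.map fun r => X - C r).prod).eval z =
        ((s.map fun r => X - C r).prod).eval 0 * (s.map fun r => 1 - z / r).prod := by
    intro s
    induction s using Multiset.induction_on with
    | empty => simp
    | cons r s ih =>
      intro hs z
      have h1 := ih (fun t ht => hs t (Multiset.mem_cons_of_mem ht)) z
      have h2 := hs r (Multiset.mem_cons_self r s)
      simp only [Multiset.map_cons, Multiset.prod_cons, eval_mul, eval_sub, eval_X, eval_C]
      rw [h1]
      field_simp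
      ring
  have h1 : ∀ w : ℂ, P.eval w = P.leadingCoeff * ((P.roots.map fun r => X - C r).prod).eval w := by
    intro w
    conv_lhs => rw [he]
    rw [eval_mul, eval_C]
  rw [h1, key _ hr z, ← mul_assoc, ← h1, h0, one_mul]

theorem vit : S_Vit := by
  intro ι l g hg hg0 hgs q T hT hq0 hqr hqt
  obtain ⟨hGd, hG0, hGz, -, hGr, -⟩ := gcb g hg hg0 hgs
  have hpos : ∀ j, 0 < g j := fun j => lt_of_lt_of_le hg0 (hg.monotone (Nat.zero_le j))
  have hev : ∀ (p : ℝ[X]) (z : ℂ), aeval z p = (p.map (algebraMap ℝ ℂ)).eval z := by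
    intro p z
    rw [aeval_def, eval₂_eq_eval_map]
  -- the point
  set t0 : ℝ := min T (g 0 / 2) with ht0d
  have ht0 : 0 < t0 := lt_min hT (by linarith)
  have ht0T : t0 ≤ T := min_le_left _ _
  have ht0g : t0 < g 0 := lt_of_le_of_lt (min_le_right _ _) (by linarith)
  have hne : GC g (t0 : ℂ) ≠ 0 := by
    rw [Ne, hGz]
    rintro ⟨j, hj⟩
    have h1 : t0 = g j := by exact_mod_cast hj
    have h2 : g 0 ≤ g j := hg.monotone (Nat.zero_le j)
    linarith
  have hnep : 0 < ‖GC g (t0 : ℂ)‖ := norm_pos_iff.2 hne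
  have htend : ∀ t : ℝ, 0 ≤ t → t ≤ T →
      Tendsto (fun i => aeval (t : ℂ) (q i)) l (𝓝 (GC g (t : ℂ))) := by
    intro t h0 h1
    have h2 := (Complex.continuous_ofReal.tendsto _).comp (hqt t h0 h1)
    rw [hGr]
    refine h2.congr fun i => ?_
    change (((q i).eval t : ℝ) : ℂ) = _
    exact (Polynomial.aeval_algebraMap_apply_eq_algebraMap_eval t (q i)).symm
  have hlow : ∀ᶠ i in l, ‖GC g (t0 : ℂ)‖ / 2 < ‖aeval (t0 : ℂ) (q i)‖ :=
    (htend t0 ht0.le ht0T).norm.eventually (lt_mem_nhds (by linarith))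
  set K : ℝ := -(Real.log (‖GC g (t0 : ℂ)‖ / 2)) / t0 with hK
  have hbd : ∀ᶠ i in l, ∀ z : ℂ, ‖aeval z (q i)‖ ≤ Real.exp (‖z‖ * K) := by
    filter_upwards [hlow, hq0, hqr] with i hi h0 hr z
    set P := (q i).map (algebraMap ℝ ℂ) with hP
    have hP0 : P.eval 0 = 1 := by
      rw [hP, ← hev]
      have := Polynomial.aeval_algebraMap_apply_eq_algebraMap_eval (A := ℂ) (0 : ℝ) (q i)
      rw [map_zero, h0, map_one] at this
      exact this
    have hPn : P ≠ 0 := by
      intro h
      rw [h] at hP0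
      simp at hP0
    have hroots : ∀ r ∈ P.roots, r.im = 0 ∧ T < r.re := by
      intro r hr'
      apply hr
      rw [hev]
      exact (mem_roots hPn).1 hr'
    rw [hev, ← hP, eval_roots P hP0] at hi ⊢
    have h1 := prod_lower ht0.le ht0T P.roots hroots
    have h2 := hi.trans_le h1
    have h3 : Real.log (‖GC g (t0 : ℂ)‖ / 2) ≤ -(t0 * sg P.roots) := by
      have := Real.log_le_log (by positivity) h2.le
      rwa [Real.log_exp] at this
    have h4 : sg P.roots ≤ K := by
      rw [hK, le_div_iff₀ ht0]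
      linarith
    refine (prod_upper P.roots z).trans (Real.exp_le_exp.2 ?_)
    exact mul_le_mul_of_nonneg_left h4 (norm_nonneg _)
  -- the differences
  set F : ι → ℂ → ℂ := fun i z => aeval z (q i) - GC g z with hFd
  have hFdiff : ∀ i, Differentiable ℂ (F i) := by
    intro i
    have h1 : Differentiable ℂ fun z : ℂ => aeval z (q i) := by
      simp only [hev]
      exact Polynomial.differentiable _
    exact h1.sub hGd
  have hFb : ∀ R : ℝ, ∃ B : ℝ, ∀ᶠ i in l, ∀ z : ℂ, ‖z‖ ≤ R → ‖F i z‖ ≤ B := by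
    intro R
    obtain ⟨B, hB⟩ := (isCompact_closedBall (0 : ℂ) R).exists_bound_of_continuousOn
      hGd.continuous.continuousOn
    refine ⟨Real.exp (R * |K|) + B, ?_⟩
    filter_upwards [hbd] with i hi z hz
    refine (norm_sub_le _ _).trans (add_le_add ((hi z).trans (Real.exp_le_exp.2 ?_))
      (hB z (by simpa using hz)))
    calc ‖z‖ * K ≤ ‖z‖ * |K| := mul_le_mul_of_nonneg_left (le_abs_self K) (norm_nonneg _)
      _ ≤ R * |K| := mul_le_mul_of_nonneg_right hz (abs_nonneg _)
  have hFt : ∀ t : ℝ, 0 < t → t ≤ T → Tendsto (fun i => F i (t : ℂ)) l (𝓝 0) := by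
    intro t h0 h1
    have h2 := (htend t h0.le h1).sub_const (GC g (t : ℂ))
    rw [sub_self] at h2
    exact h2
  have hfin := vitali (Eventually.of_forall hFdiff) hFb hT hFt
  rw [tendstoLocallyUniformly_iff_forall_isCompact]
  intro S hS
  obtain ⟨R, hR⟩ := hS.isBounded.subset_closedBall (0 : ℂ)
  rw [Metric.tendstoUniformlyOn_iff]
  intro ε hε
  filter_upwards [hfin R ε hε] with i hi z hz
  have h1 := hi z (by simpa using hR hz)
  rw [dist_comm, dist_eq_norm]
  exact h1

end Pool.Agent.Q237.CD
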